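import Pool.Agent.R693.SU.Stm

/-! Piece SU-HOM. -/

set_option autoImplicit false

open Matrix

namespace Pool.Agent.R693.SU

universe u

theorem hom_mul {a b : ℚ} {x y : Matrix (Fin 2) (Fin 2) ℂ} (h : QB a b x y)
    (α β γ δ α' β' γ' δ' : ℚ) :
    qel x y α β γ δ * qel x y α' β' γ' δ' =
      qel x y (α * α' + a * β * β' + b * γ * γ' - a * b * δ * δ')
        (α * β' + β * α' - b * γ * δ' + b * δ * γ')
        (α * γ' + a * β * δ' + γ * α' - a * δ * β')
        (α * δ' + β * γ' - γ * β' + δ * α') := by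
  have h1 := h.hx
  have h2 := h.hy
  have h4 : y * x = -(x * y) := by rw [h.hxy, neg_neg]
  have e1 : x * (x * y) = (a : ℂ) • y := by rw [← mul_assoc, h1, smul_mul_assoc, one_mul]
  have e2 : y * (x * y) = -((b : ℂ) • x) := by
    rw [← mul_assoc, h4, neg_mul, mul_assoc, h2, mul_smul_comm, mul_one]
  have e3 : x * y * x = -((a : ℂ) • y) := by rw [mul_assoc, h4, mul_neg, e1]
  have e4 : x * y * y = (b : ℂ) • x := by rw [mul_assoc, h2, mul_smul_comm, mul_one]
  have e5 : x * y * (x * y) = -(((a : ℂ) * b) • (1 : Matrix (Fin 2) (Fin 2) ℂ)) := by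
    rw [← mul_assoc, e3, neg_mul, smul_mul_assoc, h2, smul_smul]
  simp only [qel, add_mul, mul_add, smul_mul_assoc, mul_smul_comm, one_mul, mul_one, h1, h2, h4,
    e1, e2, e3, e4, e5]
  push_cast
  module

theorem hom_trx {a b : ℚ} {x y : Matrix (Fin 2) (Fin 2) ℂ} (h : QB a b x y) :
    x.trace = 0 ∧ y.trace = 0 ∧ (x * y).trace = 0 := by
  have ha : (a : ℂ) ≠ 0 := by exact_mod_cast h.ha
  have hb : (b : ℂ) ≠ 0 := by exact_mod_cast h.hb
  refine ⟨?_, ?_, ?_⟩
  · have e1 : (x * (y * y)).trace = (b : ℂ) * x.trace := by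
      rw [h.hy, mul_smul_comm, mul_one, Matrix.trace_smul, smul_eq_mul]
    have e2 : (x * (y * y)).trace = -(x * (y * y)).trace := by
      conv_lhs => rw [← mul_assoc, h.hxy, neg_mul, Matrix.trace_neg, mul_assoc,
        Matrix.trace_mul_comm, mul_assoc]
    rw [e1] at e2
    have e3 : (b : ℂ) * x.trace = 0 := by linear_combination (1 / 2) * e2
    exact (mul_eq_zero.1 e3).resolve_left hb
  · have h4 : y * x = -(x * y) := by rw [h.hxy, neg_neg]
    have e1 : (y * (x * x)).trace = (a : ℂ) * y.trace := by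
      rw [h.hx, mul_smul_comm, mul_one, Matrix.trace_smul, smul_eq_mul]
    have e2 : (y * (x * x)).trace = -(y * (x * x)).trace := by
      conv_lhs => rw [← mul_assoc, h4, neg_mul, Matrix.trace_neg, mul_assoc,
        Matrix.trace_mul_comm, mul_assoc]
    rw [e1] at e2
    have e3 : (a : ℂ) * y.trace = 0 := by linear_combination (1 / 2) * e2
    exact (mul_eq_zero.1 e3).resolve_left ha
  · have e2 : (x * y).trace = -(x * y).trace := by
      conv_lhs => rw [h.hxy, Matrix.trace_neg, Matrix.trace_mul_comm]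
    linear_combination (1 / 2) * e2

theorem hom_tr {a b : ℚ} {x y : Matrix (Fin 2) (Fin 2) ℂ} (h : QB a b x y) (α β γ δ : ℚ) :
    (qel x y α β γ δ).trace = 2 * α := by
  obtain ⟨h1, h2, h3⟩ := hom_trx h
  simp only [qel, Matrix.trace_add, Matrix.trace_smul, h1, h2, h3, Matrix.trace_one, smul_eq_mul,
    mul_zero, add_zero, Fintype.card_fin]
  push_cast
  ring

/-- uniqueness of the coordinates -/
theorem hom_uniq {a b : ℚ} {x y : Matrix (Fin 2) (Fin 2) ℂ} (h : QB a b x y)
    {α β γ δ α' β' γ' δ' : ℚ} (he : qel x y α β γ δ = qel x y α' β' γ' δ') :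
    α = α' ∧ β = β' ∧ γ = γ' ∧ δ = δ' := by
  have ha := h.ha
  have hb := h.hb
  have key : ∀ r s t v : ℚ, (qel x y r s t v * qel x y α β γ δ).trace =
      (qel x y r s t v * qel x y α' β' γ' δ').trace := fun r s t v => by rw [he]
  simp only [hom_mul h, hom_tr h] at key
  have k1 := key 1 0 0 0
  have k2 := key 0 1 0 0
  have k3 := key 0 0 1 0
  have k4 := key 0 0 0 1
  have k1' : (2 : ℂ) * ((1 * α + a * 0 * β + b * 0 * γ - a * b * 0 * δ : ℚ) : ℂ) =
    2 * ((1 * α' + a * 0 * β' + b * 0 * γ' - a * b * 0 * δ' : ℚ) : ℂ) := k1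
  have q1 := (mul_right_injective₀ (two_ne_zero : (2 : ℂ) ≠ 0)) k1
  have q2 := (mul_right_injective₀ (two_ne_zero : (2 : ℂ) ≠ 0)) k2
  have q3 := (mul_right_injective₀ (two_ne_zero : (2 : ℂ) ≠ 0)) k3
  have q4 := (mul_right_injective₀ (two_ne_zero : (2 : ℂ) ≠ 0)) k4
  have q1 := Rat.cast_injective q1
  have q2 := Rat.cast_injective q2
  have q3 := Rat.cast_injective q3
  have q4 := Rat.cast_injective q4
  refine ⟨by linarith, ?_, ?_, ?_⟩
  · have : a * (β - β') = 0 := by linarith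
    have := (mul_eq_zero.1 this).resolve_left ha
    linarith
  · have : b * (γ - γ') = 0 := by linarith
    have := (mul_eq_zero.1 this).resolve_left hb
    linarith
  · have : (a * b) * (δ - δ') = 0 := by linarith
    have := (mul_eq_zero.1 this).resolve_left (mul_ne_zero ha hb)
    linarith

theorem hom_ch (M : Matrix (Fin 2) (Fin 2) ℂ) : M * (M.trace • 1 - M) = M.det • 1 := by
  ext i j
  fin_cases i <;> fin_cases j <;>
    simp [Matrix.mul_apply, Fin.sum_univ_two, Matrix.trace_fin_two, Matrix.det_fin_two] <;> ring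

theorem hom_det {a b : ℚ} {x y : Matrix (Fin 2) (Fin 2) ℂ} (h : QB a b x y) (α β γ δ : ℚ) :
    (qel x y α β γ δ).det = ((α ^ 2 - a * β ^ 2 - b * γ ^ 2 + a * b * δ ^ 2 : ℚ) : ℂ) := by
  have h1 := hom_ch (qel x y α β γ δ)
  have h2 : (qel x y α β γ δ).trace • (1 : Matrix (Fin 2) (Fin 2) ℂ) - qel x y α β γ δ =
      qel x y α (-β) (-γ) (-δ) := by
    rw [hom_tr h]
    simp only [qel]
    push_cast
    module
  rw [h2, hom_mul h] at h1
  have h3 := congrFun (congrFun h1 0) 0
  have h4 : qel x y (α * α + a * β * -β + b * γ * -γ - a * b * δ * -δ)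
      (α * -β + β * α - b * γ * -δ + b * δ * -γ) (α * -γ + a * β * -δ + γ * α - a * δ * -β)
      (α * -δ + β * -γ - γ * -β + δ * α) =
      ((α ^ 2 - a * β ^ 2 - b * γ ^ 2 + a * b * δ ^ 2 : ℚ) : ℂ) • 1 := by
    have z1 : α * α + a * β * -β + b * γ * -γ - a * b * δ * -δ =
      α ^ 2 - a * β ^ 2 - b * γ ^ 2 + a * b * δ ^ 2 := by ring
    have z2 : α * -β + β * α - b * γ * -δ + b * δ * -γ = 0 := by ring
    have z3 : α * -γ + a * β * -δ + γ * α - a * δ * -β = 0 := by ring
    have z4 : α * -δ + β * -γ - γ * -β + δ * α = 0 := by ring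
    rw [z1, z2, z3, z4]
    simp [qel]
  rw [h4] at h3
  simpa using h3.symm

theorem s_hom : S_HOM.{u} := by
  intro K _ _ G _ ρ a b x y hQB hdet hq
  choose α β γ δ hρ using hq
  have hN : ∀ g, α g ^ 2 - a * β g ^ 2 - b * γ g ^ 2 + a * b * δ g ^ 2 = 1 := by
    intro g
    have h1 := hdet g
    rw [hρ g, hom_det hQB] at h1
    exact_mod_cast h1
  have h1 : qel x y (α 1) (β 1) (γ 1) (δ 1) = qel x y 1 0 0 0 := by
    rw [← hρ 1, map_one]
    simp [qel]
  have hm : ∀ g k, qel x y (α (g * k)) (β (g * k)) (γ (g * k)) (δ (g * k)) =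
      qel x y (α g) (β g) (γ g) (δ g) * qel x y (α k) (β k) (γ k) (δ k) := by
    intro g k
    rw [← hρ, ← hρ, ← hρ, map_mul]
    rfl
  refine ⟨{ toFun := fun g => ⟨(α g : K), (β g : K), (γ g : K), (δ g : K)⟩
            map_one' := ?_
            map_mul' := ?_ }, ?_, ?_⟩
  · obtain ⟨q1, q2, q3, q4⟩ := hom_uniq hQB h1
    ext <;> simp [q1, q2, q3, q4]
  · intro g k
    have h2 := hm g k
    rw [hom_mul hQB] at h2
    obtain ⟨q1, q2, q3, q4⟩ := hom_uniq hQB h2
    ext <;> simp [q1, q2, q3, q4]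
  · intro g
    have h2 : (α g : K) ^ 2 - a * (β g : K) ^ 2 - b * (γ g : K) ^ 2 + a * b * (δ g : K) ^ 2 = 1 := by
      exact_mod_cast congrArg (Rat.cast (K := K)) (hN g)
    ext
    · simp
      linear_combination h2
    · simp
      ring
    · simp
      ring
    · simp
      ring
  · intro g hg
    have e1 : (α g : K) = 1 := congrArg QuaternionAlgebra.re hg
    have e2 : (β g : K) = 0 := congrArg QuaternionAlgebra.imI hg
    have e3 : (γ g : K) = 0 := congrArg QuaternionAlgebra.imJ hg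
    have e4 : (δ g : K) = 0 := congrArg QuaternionAlgebra.imK hg
    have e1' : α g = 1 := by exact_mod_cast e1
    have e2' : β g = 0 := by exact_mod_cast e2
    have e3' : γ g = 0 := by exact_mod_cast e3
    have e4' : δ g = 0 := by exact_mod_cast e4
    apply Units.ext
    rw [hρ g, e1', e2', e3', e4']
    simp [qel]

end Pool.Agent.R693.SU
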